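import Pool.Agent.H465.OC.StmC
import Pool.Agent.H476.OCLSBasic

/-!
# Project OC, task C5: integrality of the Hecke operators (`HeckeQ → HeckeZ`)
-/

set_option autoImplicit false

namespace Pool.Agent.H679.OCJHeckeZ

open Polynomial Pool.Agent.Q279.SC Pool.Agent.H465.OC
open Pool.Agent.H476.OCLSBasic (ls_coeff ls_mul ls_pow VV_mul VV_not cc_map z4_0 z6_0 qD_Di cc_inv)

noncomputable section

variable {R S : Type} [CommRing R] [CommRing S]

/-- change of coefficients as a ring homomorphism -/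
def lh (φ : R →+* S) : LaurentSeries R →+* LaurentSeries S where
  toFun s := HahnSeries.map s φ
  map_one' := by
    ext n
    by_cases h : n = 0
    · subst h
      simp [HahnSeries.coeff_one]
    · simp [HahnSeries.coeff_one, h]
  map_mul' x y := by
    exact HahnSeries.map_mul (Γ := ℤ) (φ : R →ₙ+* S)
  map_zero' := by
    ext n
    simp
  map_add' x y := by
    ext n
    simp

lemma lh_coeff (φ : R →+* S) (s : LaurentSeries R) (n : ℤ) : (lh φ s).coeff n = φ (s.coeff n) := rfl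

lemma lh_ls (φ : R →+* S) (f : PowerSeries R) : lh φ (ls f) = ls (PowerSeries.map φ f) := by
  ext n
  rw [lh_coeff, ls_coeff, ls_coeff]
  split_ifs
  · rw [map_zero]
  · rw [PowerSeries.coeff_map]

lemma lh_single (φ : R →+* S) (a : ℤ) (r : R) :
    lh φ (HahnSeries.single a r) = HahnSeries.single a (φ r) := by
  ext n
  rw [lh_coeff]
  by_cases h : n = a
  · subst h
    rw [HahnSeries.coeff_single_same, HahnSeries.coeff_single_same]
  · rw [HahnSeries.coeff_single_of_ne h, HahnSeries.coeff_single_of_ne h, map_zero]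

lemma map_qd (φ : R →+* S) : PowerSeries.map φ (qd R) = qd S := map_map' φ zd

lemma map_inv (φ : R →+* S) : PowerSeries.map φ (PowerSeries.invOfUnit (qd R) 1) =
    PowerSeries.invOfUnit (qd S) 1 := by
  have h1 : qd R * PowerSeries.invOfUnit (qd R) 1 = 1 :=
    PowerSeries.mul_invOfUnit (qd R) 1 (cc_map _ Pool.Agent.Q237.SX.zd0)
  have h2 : qd S * PowerSeries.invOfUnit (qd S) 1 = 1 :=
    PowerSeries.mul_invOfUnit (qd S) 1 (cc_map _ Pool.Agent.Q237.SX.zd0)
  have h3 := congrArg (PowerSeries.map φ) h1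
  rw [map_mul, map_qd, map_one] at h3
  have h4 : PowerSeries.map φ (PowerSeries.invOfUnit (qd R) 1) * qd S = 1 := by rw [mul_comm]; exact h3
  exact left_inv_eq_right_inv h4 h2

lemma lh_Di (φ : R →+* S) : lh φ (Di R) = Di S := by
  unfold Di
  rw [map_mul, lh_single, lh_ls, map_inv, map_one]

lemma lh_jj (φ : R →+* S) : lh φ (jj R) = jj S := by
  unfold jj
  rw [map_mul, map_pow, lh_ls, lh_Di, map_q4]

lemma map_bb (φ : R →+* S) (i : Fin 6) : PowerSeries.map φ (bb R i) = bb S i := by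
  fin_cases i <;> simp [bb, map_q4, map_q6]

lemma lh_VV (p : ℕ) [Fact p.Prime] (φ : R →+* S) (s : LaurentSeries R) :
    lh φ (VV p R s) = VV p S (lh φ s) := by
  ext n
  rw [lh_coeff]
  by_cases hn : (p : ℤ) ∣ n
  · obtain ⟨m, rfl⟩ := hn
    rw [VV_mul, VV_mul, lh_coeff]
  · rw [VV_not p s n hn, VV_not p _ n hn, map_zero]

lemma UU_coeff (p : ℕ) [Fact p.Prime] (s : LaurentSeries R) (n : ℤ) :
    (UU p R s).coeff n = s.coeff (p * n) := rfl

lemma lh_UU (p : ℕ) [Fact p.Prime] (φ : R →+* S) (s : LaurentSeries R) :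
    lh φ (UU p R s) = UU p S (lh φ s) := by
  ext n
  rw [lh_coeff, UU_coeff, UU_coeff, lh_coeff]

lemma UU_add (p : ℕ) [Fact p.Prime] (s t : LaurentSeries R) : UU p R (s + t) = UU p R s + UU p R t := by
  ext n
  rw [HahnSeries.coeff_add, UU_coeff, UU_coeff, UU_coeff, HahnSeries.coeff_add]

lemma s0_coeff (a : R) (s : LaurentSeries R) (n : ℤ) : (HahnSeries.single 0 a * s : LaurentSeries R).coeff n =
    a * s.coeff n := by
  rw [HahnSeries.coeff_single_mul, sub_zero]

lemma UU_smul (p : ℕ) [Fact p.Prime] (a : R) (s : LaurentSeries R) :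
    UU p R (HahnSeries.single 0 a * s) = HahnSeries.single 0 a * UU p R s := by
  ext n
  rw [s0_coeff, UU_coeff, UU_coeff, s0_coeff]

lemma VV_smul (p : ℕ) [Fact p.Prime] (a : R) (s : LaurentSeries R) :
    VV p R (HahnSeries.single 0 a * s) = HahnSeries.single 0 a * VV p R s := by
  ext n
  rw [s0_coeff]
  by_cases hn : (p : ℤ) ∣ n
  · obtain ⟨m, rfl⟩ := hn
    rw [VV_mul, VV_mul, s0_coeff]
  · rw [VV_not p s n hn, VV_not p _ n hn, mul_zero]

lemma alg (r : R) : algebraMap R (LaurentSeries R) r = HahnSeries.single 0 r := by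
  rw [HahnSeries.algebraMap_apply']
  simp

lemma lh_aeval (φ : R →+* S) (g : R[X]) : lh φ (aeval (jj R) g) = aeval (jj S) (g.map φ) := by
  rw [aeval_def, aeval_def, hom_eval₂, eval₂_map, lh_jj]
  congr 1
  ext1 r
  rw [RingHom.comp_apply, RingHom.comp_apply, alg, alg, lh_single]

/-- `b_i Δ^(-N) g(j)` -/
def T (R : Type) [CommRing R] (i : Fin 6) (N : ℕ) (g : R[X]) : LaurentSeries R :=
  ls (bb R i) * Di R ^ N * aeval (jj R) g

lemma lh_T (φ : R →+* S) (i : Fin 6) (N : ℕ) (g : R[X]) : lh φ (T R i N g) = T S i N (g.map φ) := by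
  unfold T
  rw [map_mul, map_mul, map_pow, lh_ls, lh_Di, lh_aeval, map_bb]

lemma T_add (i : Fin 6) (N : ℕ) (g h : R[X]) : T R i N (g + h) = T R i N g + T R i N h := by
  unfold T
  rw [map_add, mul_add]

lemma T_smul (i : Fin 6) (N : ℕ) (a : R) (g : R[X]) :
    T R i N (C a * g) = HahnSeries.single 0 a * T R i N g := by
  unfold T
  rw [map_mul, aeval_C, alg]
  ring

lemma T_sum (i : Fin 6) (N : ℕ) {ι : Type} (s : Finset ι) (f : ι → R[X]) :
    T R i N (∑ k ∈ s, f k) = ∑ k ∈ s, T R i N (f k) := by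
  unfold T
  rw [map_sum, Finset.mul_sum]

lemma cc_bb (i : Fin 6) : PowerSeries.constantCoeff (bb R i) = 1 := by
  have h4 : PowerSeries.constantCoeff (q4 R) = 1 := by
    have := cc_map (R := R) _ z4_0
    simpa [q4] using this
  have h6 : PowerSeries.constantCoeff (q6 R) = 1 := by
    have := cc_map (R := R) _ z6_0
    simpa [q6] using this
  fin_cases i <;> simp [bb, h4, h6]

lemma T_X (i : Fin 6) (N n : ℕ) : ∃ f : PowerSeries R, PowerSeries.constantCoeff f = 1 ∧
    T R i N (X ^ n) = HahnSeries.single (-((N + n : ℕ) : ℤ)) 1 * ls f := by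
  set D := PowerSeries.invOfUnit (qd R) 1 with hD
  have h4 : PowerSeries.constantCoeff (q4 R) = 1 := by
    have := cc_map (R := R) _ z4_0
    simpa [q4] using this
  refine ⟨bb R i * D ^ N * (q4 R ^ 3 * D) ^ n, ?_, ?_⟩
  · simp only [map_mul, map_pow, cc_bb, h4, hD, cc_inv, one_pow, mul_one]
  · have hs : ∀ k : ℕ, (HahnSeries.single (-1 : ℤ) (1 : R)) ^ k = HahnSeries.single (-(k : ℤ)) 1 := by
      intro k
      rw [HahnSeries.single_pow]
      simp
    have hs2 : HahnSeries.single (-((N + n : ℕ) : ℤ)) (1 : R) =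
        (HahnSeries.single (-1 : ℤ) (1 : R)) ^ (N + n) := (hs (N + n)).symm
    unfold T
    rw [map_pow, aeval_X, hs2]
    unfold jj Di
    rw [← hD, ls_mul, ls_mul, ls_pow, ls_pow, ls_mul, ls_pow]
    ring

lemma T_X_lt (i : Fin 6) (N n : ℕ) (m : ℤ) (hm : m < -((N + n : ℕ) : ℤ)) :
    (T R i N (X ^ n)).coeff m = 0 := by
  obtain ⟨f, -, hf⟩ := T_X (R := R) i N n
  rw [hf, HahnSeries.coeff_single_mul, one_mul, ls_coeff, if_pos (by linarith)]

lemma T_X_eq (i : Fin 6) (N n : ℕ) : (T R i N (X ^ n)).coeff (-((N + n : ℕ) : ℤ)) = 1 := by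
  obtain ⟨f, hf1, hf⟩ := T_X (R := R) i N n
  rw [hf, HahnSeries.coeff_single_mul, one_mul, ls_coeff, sub_self, if_neg (lt_irrefl _)]
  simpa using hf1

lemma T_lead (i : Fin 6) (N : ℕ) (Q : R[X]) :
    (T R i N Q).coeff (-((N + Q.natDegree : ℕ) : ℤ)) = Q.leadingCoeff := by
  have h1 : T R i N Q = ∑ k ∈ Finset.range (Q.natDegree + 1), HahnSeries.single 0 (Q.coeff k) * T R i N (X ^ k) := by
    conv_lhs => rw [Q.as_sum_range_C_mul_X_pow]
    rw [T_sum]
    apply Finset.sum_congr rfl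
    intro k _
    rw [T_smul]
  rw [h1, Finset.sum_range_succ, HahnSeries.coeff_add, s0_coeff, T_X_eq, mul_one,
    HahnSeries.coeff_sum]
  rw [Finset.sum_eq_zero, zero_add]
  · rfl
  · intro k hk
    rw [Finset.mem_range] at hk
    rw [s0_coeff, T_X_lt _ _ _ _ (by push_cast; omega), mul_zero]

lemma lh_inj (s t : LaurentSeries ℤ) (h : lh (Int.castRingHom ℚ) s = lh (Int.castRingHom ℚ) t) : s = t := by
  ext n
  have h1 := congrArg (fun u : LaurentSeries ℚ => u.coeff n) h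
  simp only [lh_coeff] at h1
  simpa using h1

lemma integ (i : Fin 6) (N : ℕ) : ∀ (k : ℕ) (Q : ℚ[X]) (y : LaurentSeries ℤ), Q.support.card ≤ k →
    lh (Int.castRingHom ℚ) y = T ℚ i N Q → ∃ Q' : ℤ[X], y = T ℤ i N Q' := by
  intro k
  induction k with
  | zero =>
    intro Q y hk hy
    have hQ : Q = 0 := by
      rw [← Polynomial.card_support_eq_zero]
      omega
    refine ⟨0, lh_inj _ _ ?_⟩
    rw [hy, hQ, lh_T, Polynomial.map_zero]
  | succ k ih =>
    intro Q y hk hy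
    by_cases hQ : Q = 0
    · refine ⟨0, lh_inj _ _ ?_⟩
      rw [hy, hQ, lh_T, Polynomial.map_zero]
    set a : ℤ := y.coeff (-((N + Q.natDegree : ℕ) : ℤ)) with ha
    have ha1 : (Int.castRingHom ℚ) a = Q.leadingCoeff := by
      rw [← T_lead i N Q, ← hy, lh_coeff]
    have h1 : lh (Int.castRingHom ℚ) (y - T ℤ i N (C a * X ^ Q.natDegree)) = T ℚ i N Q.eraseLead := by
      rw [map_sub, hy, lh_T, Polynomial.map_mul, Polynomial.map_pow, map_X, map_C, ha1, sub_eq_iff_eq_add,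
        ← T_add, Polynomial.eraseLead_add_C_mul_X_pow]
    have h2 : Q.eraseLead.support.card ≤ k := by
      have := Polynomial.eraseLead_support_card_lt hQ
      omega
    obtain ⟨Q', hQ'⟩ := ih _ _ h2 h1
    refine ⟨Q' + C a * X ^ Q.natDegree, ?_⟩
    rw [T_add, ← hQ', sub_add_cancel]

lemma smul_eq' (p e : ℕ) (s : LaurentSeries ℚ) : ((p : ℚ) ^ e) • s = (p : LaurentSeries ℚ) ^ e * s := by
  have h1 : ((p : LaurentSeries ℚ) ^ e) = HahnSeries.single 0 ((p : ℚ) ^ e) := by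
    rw [← alg, map_pow, map_natCast]
  rw [h1]
  ext n
  rw [s0_coeff, HahnSeries.coeff_smul, smul_eq_mul]

theorem main : HeckeQ → HeckeZ := by
  intro hQ p hp R _ i N hN g
  -- monomials over the integers
  have hZ : ∀ n : ℕ, ∃ Q : ℤ[X], VV p ℤ (T ℤ i N (X ^ n)) +
      (p : LaurentSeries ℤ) ^ (12 * N + 1 - rr i) * UU p ℤ (T ℤ i N (X ^ n)) = T ℤ i N Q := by
    intro n
    obtain ⟨Q, hQ1, -⟩ := hQ p i (-(N : ℤ)) (X ^ n)
    have hf : ∀ G : ℚ[X], fL i (-(N : ℤ)) G = T ℚ i N G := by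
      intro G
      unfold fL T
      have h1 : ls (qD ℚ) ^ (-(N : ℤ)) = Di ℚ ^ N := by
        rw [zpow_neg, zpow_natCast]
        apply inv_eq_of_mul_eq_one_right
        rw [← mul_pow, qD_Di, one_pow]
      rw [h1]
    rw [hf, hf] at hQ1
    have hw : (1 : ℤ) - Pool.Agent.H465.OC.wt i (-(N : ℤ)) = ((12 * N + 1 - rr i : ℕ) : ℤ) := by
      unfold Pool.Agent.H465.OC.wt
      push_cast [Nat.cast_sub (show rr i ≤ 12 * N + 1 by omega)]
      ring
    rw [hw, zpow_natCast, smul_eq'] at hQ1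
    have h2 : lh (Int.castRingHom ℚ) (VV p ℤ (T ℤ i N (X ^ n)) +
        (p : LaurentSeries ℤ) ^ (12 * N + 1 - rr i) * UU p ℤ (T ℤ i N (X ^ n))) = T ℚ i N Q := by
      rw [map_add, map_mul, map_pow, map_natCast, lh_VV, lh_UU, lh_T, Polynomial.map_pow, map_X]
      exact hQ1
    obtain ⟨Q', hQ'⟩ := integ i N _ Q _ le_rfl h2
    exact ⟨Q', hQ'⟩
  -- monomials over `R`
  have hR : ∀ n : ℕ, ∃ Q : R[X], VV p R (T R i N (X ^ n)) +
      (p : LaurentSeries R) ^ (12 * N + 1 - rr i) * UU p R (T R i N (X ^ n)) = T R i N Q := by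
    intro n
    obtain ⟨Q, hQ1⟩ := hZ n
    refine ⟨Q.map (Int.castRingHom R), ?_⟩
    have h := congrArg (lh (Int.castRingHom R)) hQ1
    rw [map_add, map_mul, map_pow, map_natCast, lh_VV, lh_UU, lh_T, lh_T, Polynomial.map_pow, map_X] at h
    exact h
  change ∃ Q : R[X], VV p R (T R i N g) + (p : LaurentSeries R) ^ (12 * N + 1 - rr i) * UU p R (T R i N g) =
    T R i N Q
  induction g using Polynomial.induction_on' with
  | add f g hf hg =>
    obtain ⟨Q1, h1⟩ := hf
    obtain ⟨Q2, h2⟩ := hg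
    refine ⟨Q1 + Q2, ?_⟩
    rw [T_add, T_add, map_add, UU_add, ← h1, ← h2]
    ring
  | monomial n a =>
    obtain ⟨Q, h⟩ := hR n
    refine ⟨C a * Q, ?_⟩
    have hm : (monomial n a : R[X]) = C a * X ^ n := by
      rw [← Polynomial.C_mul_X_pow_eq_monomial]
    rw [hm, T_smul, T_smul, VV_smul, UU_smul, ← h]
    ring

end

end Pool.Agent.H679.OCJHeckeZ
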