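import Mathlib

/-!
# Numerical enclosures of `log ‖W‖` and `arg W` for rational complex numbers `W`

`enc a b k1 k2 j l θ (by decide +kernel)` proves `|log ‖a + b i‖ - l| ≤ 10⁻⁹` and `|arg (a + b i) - θ| ≤ 10⁻⁹`.
The parameters are computed by the script `logenc.py`.
-/

set_option autoImplicit false

namespace Pool.Agent.H679.LogEnc

/-- partial sum of `artanh` -/
def ath : ℕ → ℚ → ℚ
  | 0, _ => 0
  | n + 1, z => ath n z + z ^ (2 * n + 1) / (2 * n + 1)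

/-- partial sum of `arctan` -/
def atn : ℕ → ℚ → ℚ
  | 0, _ => 0
  | n + 1, z => atn n z + (-1) ^ n * z ^ (2 * n + 1) / (2 * n + 1)

lemma ath_cast (n : ℕ) (z : ℚ) : ((ath n z : ℚ) : ℝ) = ∑ i ∈ Finset.range n, (z : ℝ) ^ (2 * i + 1) / (2 * i + 1) := by
  induction n with
  | zero => simp [ath]
  | succ n ih =>
    rw [ath, Finset.sum_range_succ, ← ih]
    push_cast
    ring

lemma atn_cast (n : ℕ) (z : ℚ) :
    ((atn n z : ℚ) : ℝ) = ∑ i ∈ Finset.range n, (-1) ^ i * (z : ℝ) ^ (2 * i + 1) / (2 * i + 1) := by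
  induction n with
  | zero => simp [atn]
  | succ n ih =>
    rw [atn, Finset.sum_range_succ, ← ih]
    push_cast
    ring

lemma arctan_bound (x : ℝ) (n : ℕ) :
    |Real.arctan x - ∑ i ∈ Finset.range n, (-1) ^ i * x ^ (2 * i + 1) / (2 * i + 1)| ≤ |x| ^ (2 * n + 1) := by
  set F : ℝ → ℝ := fun x => Real.arctan x - ∑ i ∈ Finset.range n, (-1) ^ i * x ^ (2 * i + 1) / (2 * i + 1) with hF
  have A : ∀ y : ℝ, HasDerivAt F ((-(y ^ 2)) ^ n / (1 + y ^ 2)) y := by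
    intro y
    have h1 : HasDerivAt F (1 / (1 + y ^ 2) - ∑ i ∈ Finset.range n, (-1) ^ i * ((2 * i + 1 : ℕ) * y ^ (2 * i)) / (2 * i + 1)) y := by
      apply (Real.hasDerivAt_arctan y).sub
      apply HasDerivAt.fun_sum
      intro i _
      have := ((hasDerivAt_pow (2 * i + 1) y).const_mul ((-1 : ℝ) ^ i)).div_const ((2 : ℝ) * i + 1)
      simpa using this
    have h2 : ∑ i ∈ Finset.range n, (-1 : ℝ) ^ i * ((2 * i + 1 : ℕ) * y ^ (2 * i)) / (2 * i + 1) =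
        ∑ i ∈ Finset.range n, (-(y ^ 2)) ^ i := by
      apply Finset.sum_congr rfl
      intro i _
      have h3 : (2 * (i : ℝ) + 1) ≠ 0 := by positivity
      push_cast
      rw [neg_pow (y ^ 2), ← pow_mul]
      field_simp
    have h3 : (1 + y ^ 2) ≠ 0 := by positivity
    have h4 : (-(y ^ 2)) ≠ 1 := by
      intro h
      have := sq_nonneg y
      linarith
    rw [h2, geom_sum_eq h4] at h1
    have h5 : (-(y ^ 2)) - 1 ≠ 0 := sub_ne_zero.mpr h4
    have h6 : 1 / (1 + y ^ 2) - ((-(y ^ 2)) ^ n - 1) / (-(y ^ 2) - 1) = (-(y ^ 2)) ^ n / (1 + y ^ 2) := by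
      rw [show -(y ^ 2) - 1 = -(1 + y ^ 2) by ring, div_neg]
      field_simp
      ring
    rw [h6] at h1
    exact h1
  have B : ∀ y ∈ Set.Icc (-|x|) |x|, ‖(-(y ^ 2)) ^ n / (1 + y ^ 2)‖ ≤ |x| ^ (2 * n) := by
    intro y hy
    have h1 : y ^ 2 ≤ x ^ 2 := sq_le_sq.2 (abs_le.2 hy)
    rw [norm_div, norm_pow, norm_neg, Real.norm_of_nonneg (sq_nonneg y), Real.norm_of_nonneg (by positivity)]
    calc (y ^ 2) ^ n / (1 + y ^ 2) ≤ (y ^ 2) ^ n := div_le_self (by positivity) (by nlinarith [sq_nonneg y])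
      _ ≤ (x ^ 2) ^ n := by gcongr
      _ = |x| ^ (2 * n) := by rw [pow_mul, sq_abs]
  have C := (convex_Icc (-|x|) |x|).norm_image_sub_le_of_norm_hasDerivWithin_le
      (fun y _ => (A y).hasDerivWithinAt) B (show (0 : ℝ) ∈ _ by simp)
      (show x ∈ _ by simp [le_abs_self, neg_le, neg_le_abs x])
  have h0 : F 0 = 0 := by
    simp [hF]
  rw [h0, sub_zero, sub_zero] at C
  rw [pow_succ]
  exact C

/-- check of the logarithm of a positive rational number: `x = 2^(k1-k2) (1+z)/(1-z)` -/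
def chkLog (x : ℚ) (k1 k2 : ℕ) (l : ℚ) : Bool :=
  decide (0 < x) && decide (k1 ≤ 9) && decide (k2 ≤ 9) &&
  decide (-(1 / 5) ≤ (x * 2 ^ k2 - 2 ^ k1) / (x * 2 ^ k2 + 2 ^ k1)) &&
  decide ((x * 2 ^ k2 - 2 ^ k1) / (x * 2 ^ k2 + 2 ^ k1) ≤ 1 / 5) &&
  decide (((k1 : ℚ) - k2) * (287209 / 414355) +
    2 * ath 8 ((x * 2 ^ k2 - 2 ^ k1) / (x * 2 ^ k2 + 2 ^ k1)) - l ≤ 1 / 10 ^ 10) &&
  decide (-(1 / 10 ^ 10) ≤ ((k1 : ℚ) - k2) * (287209 / 414355) +
    2 * ath 8 ((x * 2 ^ k2 - 2 ^ k1) / (x * 2 ^ k2 + 2 ^ k1)) - l)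

theorem encLog (x : ℚ) (k1 k2 : ℕ) (l : ℚ) (h : chkLog x k1 k2 l = true) : |Real.log (x : ℝ) - l| ≤ 2 / 10 ^ 9 := by
  simp only [chkLog, Bool.and_eq_true, decide_eq_true_eq] at h
  obtain ⟨⟨⟨⟨⟨⟨hx, hk1⟩, hk2⟩, hz1⟩, hz2⟩, h1⟩, h2⟩ := h
  set z : ℚ := (x * 2 ^ k2 - 2 ^ k1) / (x * 2 ^ k2 + 2 ^ k1) with hz
  have hxr : (0 : ℝ) < x := by exact_mod_cast hx
  have hzr1 : -(1 / 5 : ℝ) ≤ (z : ℝ) := by
    have : ((-(1 / 5) : ℚ) : ℝ) ≤ (z : ℝ) := by exact_mod_cast hz1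
    push_cast at this
    exact this
  have hzr2 : (z : ℝ) ≤ 1 / 5 := by
    have : (z : ℝ) ≤ ((1 / 5 : ℚ) : ℝ) := by exact_mod_cast hz2
    push_cast at this
    exact this
  have habs : |(z : ℝ)| ≤ 1 / 5 := abs_le.mpr ⟨hzr1, hzr2⟩
  have hb := Real.sum_range_sub_log_div_le (x := (z : ℝ)) (lt_of_le_of_lt habs (by norm_num)) 8
  rw [← ath_cast] at hb
  have hp1 : (0 : ℝ) < 2 ^ k1 := by positivity
  have hp2 : (0 : ℝ) < 2 ^ k2 := by positivity
  have hz' : (z : ℝ) = ((x : ℝ) * 2 ^ k2 - 2 ^ k1) / ((x : ℝ) * 2 ^ k2 + 2 ^ k1) := by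
    rw [hz]
    push_cast
    rfl
  have hd : (0 : ℝ) < (x : ℝ) * 2 ^ k2 + 2 ^ k1 := by positivity
  have hq : (1 + (z : ℝ)) / (1 - z) = x * 2 ^ k2 / 2 ^ k1 := by
    have e1 : 1 + (z : ℝ) = 2 * (x * 2 ^ k2) / ((x : ℝ) * 2 ^ k2 + 2 ^ k1) := by
      rw [hz']
      field_simp
      ring
    have e2 : 1 - (z : ℝ) = 2 * 2 ^ k1 / ((x : ℝ) * 2 ^ k2 + 2 ^ k1) := by
      rw [hz']
      field_simp
      ring
    rw [e1, e2]
    field_simp
  have hlog : Real.log ((1 + (z : ℝ)) / (1 - z)) = Real.log x + (k2 : ℝ) * Real.log 2 - k1 * Real.log 2 := by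
    rw [hq, Real.log_div (by positivity) (by positivity), Real.log_mul (by positivity) (by positivity), Real.log_pow,
      Real.log_pow]
  rw [hlog] at hb
  have hzz : |(z : ℝ)| ^ (2 * 8 + 1) / (1 - (z : ℝ) ^ 2) ≤ 2 / 10 ^ 12 := by
    have e1 : |(z : ℝ)| ^ (2 * 8 + 1) ≤ (1 / 5) ^ (2 * 8 + 1) := by gcongr
    have e2 : (z : ℝ) ^ 2 ≤ (1 / 5) ^ 2 := by
      rw [← sq_abs]
      gcongr
    have e3 : (0 : ℝ) < 1 - (z : ℝ) ^ 2 := by
      have : (z : ℝ) ^ 2 ≤ 1 / 25 := by norm_num at e2 ⊢; exact e2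
      linarith
    rw [div_le_iff₀ e3]
    calc |(z : ℝ)| ^ (2 * 8 + 1) ≤ (1 / 5) ^ (2 * 8 + 1) := e1
      _ ≤ 2 / 10 ^ 12 * (1 - (1 / 5) ^ 2) := by norm_num
      _ ≤ 2 / 10 ^ 12 * (1 - (z : ℝ) ^ 2) := by
        have : (1 : ℝ) - (1 / 5) ^ 2 ≤ 1 - (z : ℝ) ^ 2 := by linarith
        exact mul_le_mul_of_nonneg_left this (by norm_num)
  have hb' := abs_le.mp (hb.trans hzz)
  have hl2 := abs_le.mp Real.log_two_near_10
  have h1r : ((k1 : ℝ) - k2) * (287209 / 414355) + 2 * (ath 8 z : ℝ) - l ≤ 1 / 10 ^ 10 := by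
    have : ((((k1 : ℚ) - k2) * (287209 / 414355) + 2 * ath 8 z - l : ℚ) : ℝ) ≤ ((1 / 10 ^ 10 : ℚ) : ℝ) := by
      exact_mod_cast h1
    push_cast at this
    exact this
  have h2r : -(1 / 10 ^ 10 : ℝ) ≤ ((k1 : ℝ) - k2) * (287209 / 414355) + 2 * (ath 8 z : ℝ) - l := by
    have : ((-(1 / 10 ^ 10) : ℚ) : ℝ) ≤ ((((k1 : ℚ) - k2) * (287209 / 414355) + 2 * ath 8 z - l : ℚ) : ℝ) := by
      exact_mod_cast h2
    push_cast at this
    exact this
  have hk1r : (k1 : ℝ) ≤ 9 := by exact_mod_cast hk1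
  have hk2r : (k2 : ℝ) ≤ 9 := by exact_mod_cast hk2
  have hk1p : (0 : ℝ) ≤ k1 := by positivity
  have hk2p : (0 : ℝ) ≤ k2 := by positivity
  have hm1 : |((k1 : ℝ) - k2) * (Real.log 2 - 287209 / 414355)| ≤ 9 / 10 ^ 10 := by
    rw [abs_mul]
    have e1 : |(k1 : ℝ) - k2| ≤ 9 := abs_le.mpr ⟨by linarith, by linarith⟩
    calc |(k1 : ℝ) - k2| * |Real.log 2 - 287209 / 414355| ≤ 9 * (1 / 10 ^ 10) :=
          mul_le_mul e1 Real.log_two_near_10 (abs_nonneg _) (by norm_num)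
      _ = 9 / 10 ^ 10 := by ring
  have hm := abs_le.mp hm1
  rw [abs_le]
  constructor
  · norm_num at *
    nlinarith [hb'.1, hb'.2, hm.1, hm.2, h1r, h2r]
  · norm_num at *
    nlinarith [hb'.1, hb'.2, hm.1, hm.2, h1r, h2r]

/-- check of the arctangent -/
def chkAtn (t : ℚ) (s : ℚ) : Bool :=
  decide (-(5 / 12) ≤ t) && decide (t ≤ 5 / 12) && decide (atn 13 t - s ≤ 1 / 10 ^ 10) &&
  decide (-(1 / 10 ^ 10) ≤ atn 13 t - s)

theorem encAtn (t s : ℚ) (h : chkAtn t s = true) : |Real.arctan (t : ℝ) - s| ≤ 2 / 10 ^ 10 := by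
  simp only [chkAtn, Bool.and_eq_true, decide_eq_true_eq] at h
  obtain ⟨⟨⟨h1, h2⟩, h3⟩, h4⟩ := h
  have h1r : -(5 / 12 : ℝ) ≤ (t : ℝ) := by
    have : ((-(5 / 12) : ℚ) : ℝ) ≤ (t : ℝ) := by exact_mod_cast h1
    push_cast at this
    exact this
  have h2r : (t : ℝ) ≤ 5 / 12 := by
    have : (t : ℝ) ≤ ((5 / 12 : ℚ) : ℝ) := by exact_mod_cast h2
    push_cast at this
    exact this
  have h3r : (atn 13 t : ℝ) - s ≤ 1 / 10 ^ 10 := by
    have : ((atn 13 t - s : ℚ) : ℝ) ≤ ((1 / 10 ^ 10 : ℚ) : ℝ) := by exact_mod_cast h3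
    push_cast at this
    exact this
  have h4r : -(1 / 10 ^ 10 : ℝ) ≤ (atn 13 t : ℝ) - s := by
    have : ((-(1 / 10 ^ 10) : ℚ) : ℝ) ≤ ((atn 13 t - s : ℚ) : ℝ) := by exact_mod_cast h4
    push_cast at this
    exact this
  have hb := arctan_bound (t : ℝ) 13
  rw [← atn_cast] at hb
  have hz : |(t : ℝ)| ^ (2 * 13 + 1) ≤ 1 / 10 ^ 10 := by
    calc |(t : ℝ)| ^ (2 * 13 + 1) ≤ (5 / 12) ^ (2 * 13 + 1) := by
          gcongr
          exact abs_le.mpr ⟨h1r, h2r⟩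
      _ ≤ 1 / 10 ^ 10 := by norm_num
  have hb' := abs_le.mp (hb.trans hz)
  rw [abs_le]
  constructor
  · norm_num at *
    linarith [hb'.1, hb'.2]
  · norm_num at *
    linarith [hb'.1, hb'.2]

lemma arg_pos {x y : ℝ} (hx : 0 < x) : Complex.arg ⟨x, y⟩ = Real.arctan (y / x) := by
  have h1 : (⟨x, y⟩ : ℂ) = ((x * √(1 + (y / x) ^ 2) : ℝ) : ℂ) *
      (Complex.cos (Real.arctan (y / x) : ℝ) + Complex.sin (Real.arctan (y / x) : ℝ) * Complex.I) := by
    have h0 : (0 : ℝ) < √(1 + (y / x) ^ 2) := by positivity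
    apply Complex.ext
    · rw [← Complex.ofReal_cos, ← Complex.ofReal_sin, Complex.re_ofReal_mul]
      simp only [Complex.add_re, Complex.ofReal_re, Complex.mul_re, Complex.I_re, Complex.ofReal_im, Complex.I_im, mul_zero,
        zero_mul, sub_zero, add_zero]
      rw [Real.cos_arctan]
      field_simp
    · rw [← Complex.ofReal_cos, ← Complex.ofReal_sin, Complex.im_ofReal_mul]
      simp only [Complex.add_im, Complex.ofReal_re, Complex.mul_im, Complex.I_re, Complex.ofReal_im, Complex.I_im, mul_zero,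
        mul_one, zero_add, add_zero]
      rw [Real.sin_arctan]
      field_simp
  rw [h1]
  apply Complex.arg_mul_cos_add_sin_mul_I (by positivity)
  have := Real.arctan_mem_Ioo (y / x)
  constructor
  · linarith [this.1, Real.pi_pos]
  · linarith [this.2, Real.pi_pos]

/-- the eight directions: the argument of `u` is `j π / 4` -/
def dir (j : ℤ) : ℚ × ℚ :=
  if j = -3 then (-1, -1) else if j = -2 then (0, -1) else if j = -1 then (1, -1) else if j = 0 then (1, 0)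
  else if j = 1 then (1, 1) else if j = 2 then (0, 1) else if j = 3 then (-1, 1) else (-1, 0)

lemma dir_arg (j : ℤ) (h1 : -3 ≤ j) (h2 : j ≤ 4) :
    Complex.arg ⟨((dir j).1 : ℝ), ((dir j).2 : ℝ)⟩ = j * (Real.pi / 4) ∧ (⟨((dir j).1 : ℝ), ((dir j).2 : ℝ)⟩ : ℂ) ≠ 0 := by
  have hI : (⟨0, 1⟩ : ℂ) = Complex.I := rfl
  have e1 : Complex.arg ⟨1, 1⟩ = Real.pi / 4 := by
    rw [arg_pos one_pos, div_one, Real.arctan_one]
  have e2 : Complex.arg ⟨1, -1⟩ = -(Real.pi / 4) := by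
    rw [arg_pos one_pos, div_one, Real.arctan_neg, Real.arctan_one]
  have n1 : (⟨1, 1⟩ : ℂ) ≠ 0 := fun h => by simpa using congrArg Complex.re h
  have n2 : (⟨1, -1⟩ : ℂ) ≠ 0 := fun h => by simpa using congrArg Complex.re h
  interval_cases j
  · have hd : dir (-3) = (-1, -1) := by decide
    rw [hd]
    push_cast
    constructor
    · have : (⟨-1, -1⟩ : ℂ) = -Complex.I * ⟨1, -1⟩ := by
        apply Complex.ext <;> simp
      rw [this, (Complex.arg_mul_eq_add_arg_iff (neg_ne_zero.mpr Complex.I_ne_zero) n2).mpr, Complex.arg_neg_I, e2]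
      · ring
      · rw [Complex.arg_neg_I, e2]
        constructor <;> linarith [Real.pi_pos]
    · intro h
      simpa using congrArg Complex.re h
  · have hd : dir (-2) = (0, -1) := by decide
    rw [hd]
    push_cast
    constructor
    · have : (⟨0, -1⟩ : ℂ) = -Complex.I := by
        apply Complex.ext <;> simp
      rw [this, Complex.arg_neg_I]
      ring
    · intro h
      simpa using congrArg Complex.im h
  · have hd : dir (-1) = (1, -1) := by decide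
    rw [hd]
    push_cast
    constructor
    · rw [e2]
      ring
    · exact n2
  · have hd : dir 0 = (1, 0) := by decide
    rw [hd]
    push_cast
    constructor
    · have : (⟨1, 0⟩ : ℂ) = 1 := rfl
      rw [this, Complex.arg_one]
      ring
    · intro h
      simpa using congrArg Complex.re h
  · have hd : dir 1 = (1, 1) := by decide
    rw [hd]
    push_cast
    constructor
    · rw [e1]
      ring
    · exact n1
  · have hd : dir 2 = (0, 1) := by decide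
    rw [hd]
    push_cast
    constructor
    · rw [hI, Complex.arg_I]
      ring
    · intro h
      simpa using congrArg Complex.im h
  · have hd : dir 3 = (-1, 1) := by decide
    rw [hd]
    push_cast
    constructor
    · have : (⟨-1, 1⟩ : ℂ) = Complex.I * ⟨1, 1⟩ := by
        apply Complex.ext <;> simp
      rw [this, (Complex.arg_mul_eq_add_arg_iff Complex.I_ne_zero n1).mpr, Complex.arg_I, e1]
      · ring
      · rw [Complex.arg_I, e1]
        constructor <;> linarith [Real.pi_pos]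
    · intro h
      simpa using congrArg Complex.re h
  · have hd : dir 4 = (-1, 0) := by decide
    rw [hd]
    push_cast
    constructor
    · have : (⟨-1, 0⟩ : ℂ) = -1 := by
        apply Complex.ext <;> simp
      rw [this, Complex.arg_neg_one]
      ring
    · intro h
      simpa using congrArg Complex.re h

/-- check of the argument: `V = W conj(u)`, `t = Im V / Re V` -/
def chkArg (a b : ℚ) (j : ℤ) (θ : ℚ) : Bool :=
  decide (-3 ≤ j) && decide (j ≤ 4) &&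
  decide (0 < a * (dir j).1 + b * (dir j).2) &&
  decide (j = 4 → b * (dir j).1 - a * (dir j).2 ≤ 0) &&
  chkAtn ((b * (dir j).1 - a * (dir j).2) / (a * (dir j).1 + b * (dir j).2))
    (θ - j * (314159265358979323846 / 400000000000000000000))

theorem encArg (a b : ℚ) (j : ℤ) (θ : ℚ) (h : chkArg a b j θ = true) :
    |Complex.arg ⟨(a : ℝ), (b : ℝ)⟩ - θ| ≤ 1 / 10 ^ 9 := by
  simp only [chkArg, Bool.and_eq_true, decide_eq_true_eq] at h
  obtain ⟨⟨⟨⟨hj1, hj2⟩, hV⟩, hj4⟩, hc⟩ := h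
  obtain ⟨hu, hu0⟩ := dir_arg j hj1 hj2
  set c : ℚ := (dir j).1 with hcdef
  set d : ℚ := (dir j).2 with hddef
  have hVr : (0 : ℝ) < (a : ℝ) * c + b * d := by
    have : ((0 : ℚ) : ℝ) < ((a * c + b * d : ℚ) : ℝ) := by exact_mod_cast hV
    push_cast at this
    exact this
  have hcd : (0 : ℝ) < (c : ℝ) ^ 2 + (d : ℝ) ^ 2 := by
    rcases eq_or_ne (c : ℝ) 0 with h | h
    · rcases eq_or_ne (d : ℝ) 0 with h' | h'
      · exact absurd (Complex.ext h h') hu0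
      · positivity
    · positivity
  have hVarg := arg_pos (y := (b : ℝ) * c - a * d) hVr
  have hV0 : (⟨(a : ℝ) * c + b * d, (b : ℝ) * c - a * d⟩ : ℂ) ≠ 0 := by
    intro h
    have := congrArg Complex.re h
    simp only [Complex.zero_re] at this
    linarith
  have hat := encAtn _ _ hc
  have htm := abs_le.mp hat
  push_cast at hat
  have hmul : (((c : ℝ) ^ 2 + (d : ℝ) ^ 2 : ℝ) : ℂ) * ⟨(a : ℝ), (b : ℝ)⟩ =
      ⟨(a : ℝ) * c + b * d, (b : ℝ) * c - a * d⟩ * ⟨(c : ℝ), (d : ℝ)⟩ := by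
    apply Complex.ext
    · rw [Complex.re_ofReal_mul, Complex.mul_re]
      ring
    · rw [Complex.im_ofReal_mul, Complex.mul_im]
      ring
  have hlow : -(Real.pi / 4) < Real.arctan (((b : ℝ) * c - a * d) / (a * c + b * d)) ∧
      Real.arctan (((b : ℝ) * c - a * d) / (a * c + b * d)) < Real.pi / 4 := by
    simp only [chkAtn, Bool.and_eq_true, decide_eq_true_eq] at hc
    obtain ⟨⟨⟨h1, h2⟩, -⟩, -⟩ := hc
    have h1r : -(5 / 12 : ℝ) ≤ ((b : ℝ) * c - a * d) / (a * c + b * d) := by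
      have : ((-(5 / 12) : ℚ) : ℝ) ≤ (((b * c - a * d) / (a * c + b * d) : ℚ) : ℝ) := by exact_mod_cast h1
      push_cast at this
      exact this
    have h2r : ((b : ℝ) * c - a * d) / (a * c + b * d) ≤ 5 / 12 := by
      have : (((b * c - a * d) / (a * c + b * d) : ℚ) : ℝ) ≤ ((5 / 12 : ℚ) : ℝ) := by exact_mod_cast h2
      push_cast at this
      exact this
    constructor
    · rw [← Real.arctan_one, ← Real.arctan_neg]
      exact Real.arctan_strictMono (by linarith)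
    · rw [← Real.arctan_one]
      exact Real.arctan_strictMono (by linarith)
  have hj1r : (-3 : ℝ) ≤ j := by exact_mod_cast hj1
  have hj2r : (j : ℝ) ≤ 4 := by exact_mod_cast hj2
  have hsum : Complex.arg ⟨(a : ℝ), (b : ℝ)⟩ =
      Real.arctan (((b : ℝ) * c - a * d) / (a * c + b * d)) + j * (Real.pi / 4) := by
    rw [← Complex.arg_real_mul _ hcd, hmul, (Complex.arg_mul_eq_add_arg_iff hV0 hu0).mpr, hVarg, hu]
    rw [hVarg, hu]
    constructor
    · nlinarith [hlow.1, Real.pi_pos]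
    · rcases eq_or_ne j 4 with h4 | h4
      · have h5 : b * c - a * d ≤ 0 := hj4 h4
        have h5r : (b : ℝ) * c - a * d ≤ 0 := by
          have : ((b * c - a * d : ℚ) : ℝ) ≤ ((0 : ℚ) : ℝ) := by exact_mod_cast h5
          push_cast at this
          exact this
        have h6 : Real.arctan (((b : ℝ) * c - a * d) / (a * c + b * d)) ≤ 0 := by
          rw [Real.arctan_le_zero]
          exact div_nonpos_of_nonpos_of_nonneg h5r hVr.le
        rw [h4]
        push_cast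
        linarith
      · have h5 : j ≤ 3 := by omega
        have h5r : (j : ℝ) ≤ 3 := by exact_mod_cast h5
        nlinarith [hlow.2, Real.pi_pos]
  rw [hsum]
  have hp1 := Real.pi_gt_d20
  have hp2 := Real.pi_lt_d20
  have hjp : |(j : ℝ) * (Real.pi / 4 - 314159265358979323846 / 400000000000000000000)| ≤ 1 / 10 ^ 18 := by
    rw [abs_mul]
    have e1 : |(j : ℝ)| ≤ 4 := abs_le.mpr ⟨by linarith, by linarith⟩
    have e2 : |Real.pi / 4 - 314159265358979323846 / 400000000000000000000| ≤ 1 / 10 ^ 19 := by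
      rw [abs_le]
      constructor
      · norm_num at hp1 hp2 ⊢
        linarith
      · norm_num at hp1 hp2 ⊢
        linarith
    calc _ ≤ 4 * (1 / 10 ^ 19 : ℝ) := mul_le_mul e1 e2 (abs_nonneg _) (by norm_num)
      _ ≤ 1 / 10 ^ 18 := by norm_num
  have hjp' := abs_le.mp hjp
  have hat' := abs_le.mp hat
  rw [abs_le]
  constructor
  · norm_num at hjp' hat' ⊢
    linarith [hjp'.1, hat'.1]
  · norm_num at hjp' hat' ⊢
    linarith [hjp'.2, hat'.2]

lemma log_norm (a b : ℝ) : Real.log ‖(⟨a, b⟩ : ℂ)‖ = 1 / 2 * Real.log (a ^ 2 + b ^ 2) := by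
  rw [Complex.norm_def, Complex.normSq_mk, Real.log_sqrt (add_nonneg (mul_self_nonneg a) (mul_self_nonneg b))]
  rw [show a * a + b * b = a ^ 2 + b ^ 2 by ring]
  ring

/-- **Enclosures of `log ‖a + b i‖` and `arg (a + b i)`.** -/
theorem enc (a b : ℚ) (k1 k2 : ℕ) (j : ℤ) (l θ : ℚ) (h : (chkLog (a ^ 2 + b ^ 2) k1 k2 (2 * l) && chkArg a b j θ) = true) :
    |Real.log ‖(⟨(a : ℝ), (b : ℝ)⟩ : ℂ)‖ - l| ≤ 1 / 10 ^ 9 ∧ |Complex.arg ⟨(a : ℝ), (b : ℝ)⟩ - θ| ≤ 1 / 10 ^ 9 := by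
  rw [Bool.and_eq_true] at h
  refine ⟨?_, encArg a b j θ h.2⟩
  have h1 := encLog _ _ _ _ h.1
  push_cast at h1
  rw [log_norm]
  have h2 := abs_le.mp h1
  rw [abs_le]
  constructor
  · norm_num at h2 ⊢
    linarith [h2.1]
  · norm_num at h2 ⊢
    linarith [h2.2]

/-- real part of `c log w` -/
lemma re_mul_log (c w : ℂ) : (c * Complex.log w).re = c.re * Real.log ‖w‖ - c.im * Complex.arg w := by
  rw [Complex.mul_re, Complex.log_re, Complex.log_im]

/-- **Enclosure of `Re (c log w)`**, `c = p + q i`, `w = a + b i` -/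
theorem encC (p q a b : ℚ) (k1 k2 : ℕ) (j : ℤ) (l θ : ℚ)
    (h : (chkLog (a ^ 2 + b ^ 2) k1 k2 (2 * l) && chkArg a b j θ) = true) :
    |((⟨(p : ℝ), (q : ℝ)⟩ : ℂ) * Complex.log ⟨(a : ℝ), (b : ℝ)⟩).re - (p * l - q * θ)| ≤ (|(p : ℝ)| + |(q : ℝ)|) / 10 ^ 9 := by
  obtain ⟨h1, h2⟩ := enc a b k1 k2 j l θ h
  rw [re_mul_log]
  calc |(p : ℝ) * Real.log ‖(⟨(a : ℝ), (b : ℝ)⟩ : ℂ)‖ - q * Complex.arg ⟨(a : ℝ), (b : ℝ)⟩ - (p * l - q * θ)| =
      |(p : ℝ) * (Real.log ‖(⟨(a : ℝ), (b : ℝ)⟩ : ℂ)‖ - l) - q * (Complex.arg ⟨(a : ℝ), (b : ℝ)⟩ - θ)| := by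
        congr 1
        ring
    _ ≤ |(p : ℝ) * (Real.log ‖(⟨(a : ℝ), (b : ℝ)⟩ : ℂ)‖ - l)| + |(q : ℝ) * (Complex.arg ⟨(a : ℝ), (b : ℝ)⟩ - θ)| :=
        abs_sub _ _
    _ ≤ |(p : ℝ)| * (1 / 10 ^ 9) + |(q : ℝ)| * (1 / 10 ^ 9) := by
        rw [abs_mul, abs_mul]
        gcongr
    _ = _ := by ring

end Pool.Agent.H679.LogEnc
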